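import Pool.Agent.N132.IX.Main

/-!
# Schur finiteness
-/

open CategoryTheory AlgebraicGeometry
open scoped ENNReal

universe u v w

namespace Pool.Agent.N132.IX

open Module Filter Topology
open Pool.Agent.H914 Pool.Agent.H914.VarClass Pool.Agent.H914.VarClass.Obj
  Pool.Agent.H914.WeilCohomology Pool.Agent.W492.BB Pool.Agent.W550.Corr Pool.Agent.Y133.Half

variable {k : Type u} [Field k] {𝒱 : VarClass k} {ops : CycleOps 𝒱}
  {W : WeilCohomology.{u, v} ops} {X Y Z P Q V : 𝒱.Obj} {C : CycleTheory.{u, v, w} W}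

/-- **The Schur finiteness law.** -/
theorem schur_law (C : CycleTheory.{u, v, w} W) (X : 𝒱.Obj) :
    Tendsto (fun n => C.ratio (pw X n)) atTop (𝓝 ⊤) ∨
      (∃ n : ℕ, ¬ LinearIndependent W.K
        fun σ : Equiv.Perm (Fin (n + 1)) => C.graph (tau X n σ)) ∧
      (∀ (n : ℕ) (x : C.A (pw X n)), CycleTheory.NumTriv x → C.cl _ x = 0) ∧
      ∃ N : ℕ, 1 ≤ N ∧ Tendsto (fun n => C.ratio (pw X n)) atTop (𝓝 (N : ℝ≥0∞)) ∧
        ∀ m n Γ, C.NComp X N m n Γ → Γ = 0 := by
  obtain ⟨-, N, h0, h1, -, h3⟩ := index_main C X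
  induction N using ENat.recTopCoe with
  | top => left; simpa using h1
  | coe d =>
    right
    obtain ⟨-, h5, -, h7, -⟩ := h3 d rfl
    have hf : NoFix C X := by
      rcases alternative C X with h | ⟨N, -, -, hf⟩
      · exfalso
        have hr0 : ∀ n, (C.numRank (pw X n) : ℝ≥0∞) ≠ 0 := fun n => by
          rw [numRank_eq]
          exact_mod_cast (a_pos C _).ne'
        have h2 : ∀ᶠ n in atTop, C.ratio (pw X n) < d + 1 := by
          apply (show Tendsto (fun n => C.ratio (pw X n)) atTop (𝓝 (d : ℝ≥0∞)) by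
            simpa using h1).eventually (gt_mem_nhds _)
          exact_mod_cast Nat.lt_succ_self d
        obtain ⟨n, hn1, hn2⟩ := ((h (d + 1)).and h2).exists
        have h3 : (((d + 1) * C.numRank (pw X n) : ℕ) : ℕ∞).toENNReal ≤
            (C.dim (pw X n)).toENNReal := ENat.toENNReal_le.2 hn1
        rw [ENat.toENNReal_coe] at h3
        have h4 : ((d : ℝ≥0∞) + 1) ≤ C.ratio (pw X n) := by
          rw [CycleTheory.ratio, ENNReal.le_div_iff_mul_le (Or.inl (hr0 n))
            (Or.inl (ENNReal.natCast_ne_top _))]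
          exact_mod_cast h3
        exact absurd hn2 (not_lt.2 h4)
      · exact hf
    refine ⟨schur_finite hf, h5, d, ?_, by simpa using h1, h7⟩
    rw [Nat.one_le_iff_ne_zero]
    rintro rfl
    exact h0 rfl

end Pool.Agent.N132.IX
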