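import Pool.Agent.N132.IX.Final

/-!
# Smash nilpotence
-/

open CategoryTheory AlgebraicGeometry
open scoped ENNReal

universe u v w

namespace Pool.Agent.N132.IX

open Module Filter Topology
open Pool.Agent.H914 Pool.Agent.H914.VarClass Pool.Agent.H914.VarClass.Obj
  Pool.Agent.H914.WeilCohomology Pool.Agent.W492.BB Pool.Agent.W550.Corr Pool.Agent.Y133.Half

variable {k : Type u} [Field k] {𝒱 : VarClass k} {ops : CycleOps 𝒱}
  {W : WeilCohomology.{u, v} ops} {X Y Z P Q V : 𝒱.Obj} {C : CycleTheory.{u, v, w} W}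

lemma pull_fil {j m n : ℕ} (f : pw X n ⟶ pw X m) {y : C.A (pw X m)} (hy : y ∈ C.fil X j m) :
    C.pull f y ∈ C.fil X j n := by
  rw [← TheoryData.act_cograph]
  exact stab_fil j _ _ _ _ hy

lemma mul_fil {j n : ℕ} {x : C.A (pw X n)} (hx : CycleTheory.NumTriv x) {y : C.A (pw X n)}
    (hy : y ∈ C.fil X j n) : x * y ∈ C.fil X (j + 1) n := by
  rw [← TheoryData.act_mulCorr]
  exact act_fil (numTriv_push _ hx) hy

/-- The external powers of a numerically trivial class lie in the steps of the filtration. -/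
lemma xpow_fil {n : ℕ} {x : C.A (pw X n)} (hx : CycleTheory.NumTriv x) : ∀ j : ℕ,
    ∃ (q : ℕ) (θ : pw (pw X n) j ≅ pw X q), C.pull θ.inv (C.xpow x j) ∈ C.fil X (j + 1) q
  | 0 => ⟨n, Iso.refl _, by
      have h : C.pull (Iso.refl (pw X n)).inv x = x := TheoryData.pull_id _ _
      change C.pull (Iso.refl (pw X n)).inv x ∈ _
      rw [h]
      exact fil_one_iff.2 hx⟩
  | j + 1 => by
    obtain ⟨q, θ, hθ⟩ := xpow_fil hx j
    let φ : (pw (pw X n) j).prod (pw X n) ≅ pw X (q + n + 1) :=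
      prodCongr θ (Iso.refl _) ≪≫ pwAdd X q n
    refine ⟨q + n + 1, φ, ?_⟩
    have e1 : φ.inv ≫ fst (pw (pw X n) j) (pw X n) = ((pwAdd X q n).inv ≫ fst _ _) ≫ θ.inv := by
      change ((pwAdd X q n).inv ≫ (prodCongr θ (Iso.refl _)).inv) ≫ _ = _
      rw [Category.assoc, Category.assoc]
      congr 1
      exact Obj.lift_fst _ _
    have key : C.pull φ.inv (C.pull (fst (pw (pw X n) j) (pw X n)) (C.xpow x j) *
        C.pull (snd (pw (pw X n) j) (pw X n)) x) ∈ C.fil X (j + 1 + 1) (q + n + 1) := by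
      rw [C.mul_comm, map_mul, ← TheoryData.pull_comp, ← TheoryData.pull_comp, e1,
        C.toTheoryData.pull_comp ((pwAdd X q n).inv ≫ fst _ _)]
      exact mul_fil (numTriv_pull _ hx) (pull_fil _ hθ)
    exact key

/-- **The zero-infinity law for smash nilpotence.** -/
theorem smash_law (C : CycleTheory.{u, v, w} W) (hC : C.SmashReduced) (X : 𝒱.Obj) :
    (∀ (n : ℕ) (x : C.A (pw X n)), CycleTheory.NumTriv x → x = 0) ∨
      Tendsto (fun n => C.ratio (pw X n)) atTop (𝓝 ⊤) := by
  obtain ⟨N, -, hN, -, hN'⟩ := index_law C X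
  induction N using ENat.recTopCoe with
  | top => right; simpa using hN
  | coe d =>
    left
    intro n x hx
    obtain ⟨q, θ, hθ⟩ := xpow_fil hx d
    have h1 : C.pull θ.inv (C.xpow x d) = 0 := by
      have h2 := fil_succ_le d q hθ
      rw [(hN' d rfl).2.2 q, Submodule.mem_bot] at h2
      exact h2
    apply hC x d
    have h2 := (pullEquiv C θ.symm).injective
    exact h2 (h1.trans (map_zero (pullEquiv C θ.symm)).symm)

end Pool.Agent.N132.IX
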