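import Pool.Agent.N132.IX.Defs
import Pool.Agent.TH133.Tens
import Pool.Agent.Y133.Half.Main2
import Pool.Agent.H914R2.GBasic

/-!
# Theories of algebraic cycles: basic properties
-/

open CategoryTheory AlgebraicGeometry

universe u v w

namespace Pool.Agent.N132.IX

open Module
open Pool.Agent.H914 Pool.Agent.H914.VarClass Pool.Agent.H914.VarClass.Obj
  Pool.Agent.H914.WeilCohomology Pool.Agent.W492.BB Pool.Agent.W550.Corr Pool.Agent.Y133.Half

variable {k : Type u} [Field k] {𝒱 : VarClass k} {ops : CycleOps 𝒱}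
  {W : WeilCohomology.{u, v} ops} {X Y Z P Q R : 𝒱.Obj}

namespace CycleTheory

variable (C : CycleTheory.{u, v, w} W)

/-- The classes of cycles. -/
noncomputable def S : Sys W where
  C X := LinearMap.range (C.cl X).toLinearMap
  even {X c} hc := by
    obtain ⟨z, rfl⟩ := hc
    have h1 := DirectSum.IsInternal.submodule_iSup_eq_top (C.isTheory.isGradedRing.isInternal X)
    have hz : z ∈ ⨆ i, C.gr X i := by rw [h1]; exact Submodule.mem_top
    refine Submodule.iSup_induction (C.gr X) (motive := fun z => C.cl X z ∈ PH W X 0) hz ?_ ?_ ?_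
    · intro i z hz
      rcases lt_or_ge i 0 with h | h
      · have h2 : C.gr X i = ⊥ := C.isTheory.isGradedRing.gr_neg X i h
        rw [h2, Submodule.mem_bot] at hz
        rw [hz, map_zero]
        exact Submodule.zero_mem _
      · obtain ⟨j, rfl⟩ := Int.eq_ofNat_of_zero_le h
        exact PH.of' (by omega) (C.cl_mem hz)
    · rw [map_zero]; exact Submodule.zero_mem _
    · intro a b ha hb
      rw [map_add]; exact Submodule.add_mem _ ha hb
  one X := ⟨1, map_one (C.cl X)⟩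
  mul {X c d} hc hd := by
    obtain ⟨a, rfl⟩ := hc
    obtain ⟨b, rfl⟩ := hd
    exact ⟨a * b, map_mul (C.cl X) _ _⟩
  map {X Y} f c hc := by
    obtain ⟨a, rfl⟩ := hc
    exact ⟨C.pull f a, C.cl_pull f a⟩
  push {X Y} f c hc := by
    obtain ⟨a, rfl⟩ := hc
    exact ⟨C.push f a, C.cl_push f a⟩

lemma cl_mem_S (x : C.A X) : C.cl X x ∈ C.S.C X := ⟨x, rfl⟩

/-- The operator on the cohomology given by a correspondence. -/
noncomputable def rho (P Q : 𝒱.Obj) : C.A (P.prod Q) →ₗ[W.K] (W.H P →ₗ[W.K] W.H Q) :=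
  corrL W P Q ∘ₗ (C.cl (P.prod Q)).toLinearMap

lemma rho_apply (Γ : C.A (P.prod Q)) : C.rho P Q Γ = W.corr (C.cl _ Γ) := rfl

lemma rho_mem (Γ : C.A (P.prod Q)) : C.rho P Q Γ ∈ C.S.Op P Q := Sys.Op.corr (C.cl_mem_S Γ)

lemma exists_rho {u : W.H P →ₗ[W.K] W.H Q} (hu : u ∈ C.S.Op P Q) : ∃ Γ, C.rho P Q Γ = u := by
  obtain ⟨_, ⟨Γ, rfl⟩, rfl⟩ := Sys.mem_Op.1 hu
  exact ⟨Γ, rfl⟩

lemma rho_eq_zero {Γ : C.A (P.prod Q)} : C.rho P Q Γ = 0 ↔ C.cl _ Γ = 0 := by
  constructor
  · exact fun h => corr_inj h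
  · intro h
    rw [rho_apply, h, corr_zero]

lemma cl_act (Γ : C.A (P.prod Q)) (x : C.A P) : C.cl Q (C.act Γ x) = C.rho P Q Γ (C.cl P x) := by
  rw [TheoryData.act_apply, C.cl_push, map_mul, C.cl_pull, rho_apply, corr_apply]

lemma rho_comp (Γ : C.A (P.prod Q)) (Δ : C.A (Q.prod R)) :
    C.rho P R (C.comp Γ Δ) = C.rho Q R Δ ∘ₗ C.rho P Q Γ := by
  have e1 : p12 P Q R = u12 P Q R := by
    apply prod_ext
    · rw [u12_fst]; exact Obj.lift_fst _ _
    · rw [u12_snd]; exact Obj.lift_snd _ _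
  have e2 : p13 P Q R = u13 P Q R := by
    apply prod_ext
    · rw [u13_fst]; exact Obj.lift_fst _ _
    · rw [u13_snd]; exact Obj.lift_snd _ _
  rw [rho_apply, rho_apply, rho_apply, ← corr_comp' _ (C.S.even (C.cl_mem_S Δ)),
    comp_eq_extR, TheoryData.extR, C.cl_push, C.mul_comm, map_mul, C.cl_pull, C.cl_pull, e1, e2]
  rfl

lemma rho_dg (P : 𝒱.Obj) : C.rho P P (dg C.toTheoryData P) = LinearMap.id := by
  rw [rho_apply, dg, TheoryData.graph, C.cl_push, map_one]
  exact Sys.corr_diag_one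

end CycleTheory

end Pool.Agent.N132.IX
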