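import Pool.Agent.N132.IX.Lim

/-!
# Lower bounds from composites of numerically trivial correspondences
-/

open CategoryTheory AlgebraicGeometry

universe u v w

namespace Pool.Agent.N132.IX

open Module Filter Topology
open Pool.Agent.H914 Pool.Agent.H914.VarClass Pool.Agent.H914.VarClass.Obj
  Pool.Agent.H914.WeilCohomology Pool.Agent.W492.BB Pool.Agent.W550.Corr Pool.Agent.Y133.Half

variable {k : Type u} [Field k] {𝒱 : VarClass k} {ops : CycleOps 𝒱}
  {W : WeilCohomology.{u, v} ops} {X Y Z P Q V : 𝒱.Obj} {C : CycleTheory.{u, v, w} W}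

/-- The classes obtained from `y` by correspondences. -/
noncomputable def cyc (C : CycleTheory.{u, v, w} W) {X : 𝒱.Obj} {m : ℕ} (y : C.A (pw X m))
    (n : ℕ) : Submodule W.K (C.A (pw X n)) :=
  LinearMap.range ((actB C.toTheoryData (X := pw X m) (Y := pw X n)).flip y)

/-- The classes obtained from `y` by homologically trivial correspondences. -/
noncomputable def ncyc (C : CycleTheory.{u, v, w} W) {X : 𝒱.Obj} {m : ℕ} (y : C.A (pw X m))
    (n : ℕ) : Submodule W.K (C.A (pw X n)) :=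
  (LinearMap.ker (C.cl ((pw X m).prod (pw X n))).toLinearMap).map
    ((actB C.toTheoryData (X := pw X m) (Y := pw X n)).flip y)

lemma mem_cyc {m n : ℕ} {y : C.A (pw X m)} {x : C.A (pw X n)} :
    x ∈ cyc C y n ↔ ∃ Γ : C.A ((pw X m).prod (pw X n)), C.act Γ y = x := Iff.rfl

lemma mem_ncyc {m n : ℕ} {y : C.A (pw X m)} {x : C.A (pw X n)} :
    x ∈ ncyc C y n ↔ ∃ Γ : C.A ((pw X m).prod (pw X n)), C.cl _ Γ = 0 ∧ C.act Γ y = x := Iff.rfl

lemma stab_cyc {m : ℕ} (y : C.A (pw X m)) : Stab C X (cyc C y) := by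
  rintro l n Δ _ ⟨Γ, rfl⟩
  exact ⟨C.comp Γ Δ, TheoryData.act_comp _ _ _ _⟩

lemma stab_ncyc {m : ℕ} (y : C.A (pw X m)) : Stab C X (ncyc C y) := by
  rintro l n Δ _ ⟨Γ, hΓ, rfl⟩
  exact ⟨C.comp Γ Δ, cl_comp_zero hΓ Δ, TheoryData.act_comp _ _ _ _⟩

lemma ncyc_le {m : ℕ} (y : C.A (pw X m)) (n : ℕ) : ncyc C y n ≤ cyc C y n := by
  rintro _ ⟨Γ, hΓ, rfl⟩
  exact ⟨Γ, rfl⟩

/-- No nonzero class is fixed by a homologically trivial correspondence. -/
def NoFix (C : CycleTheory.{u, v, w} W) (X : 𝒱.Obj) : Prop :=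
  ∀ (m : ℕ) (Γ : C.A ((pw X m).prod (pw X m))) (y : C.A (pw X m)), C.cl _ Γ = 0 →
    C.act Γ y = y → y = 0

/-- One step of the chain. -/
lemma cyc_step (hM : Main C X) (hf : NoFix C X) {m : ℕ} {y : C.A (pw X m)} (hy : y ≠ 0) {ε : ℝ}
    (hε : 0 < ε) : ∀ᶠ n in atTop, (1 - ε) * C.S.a (pw X n) + finrank W.K (ncyc C y n) ≤
      finrank W.K (cyc C y n) := by
  obtain ⟨g, hg, hgg, hg0, U, -, -, hU, hdim⟩ := step C X hM.fin hM.num (stab_ncyc y)
    (stab_cyc y) (ncyc_le y) (by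
      rintro l n Γ hΓ _ ⟨Δ, rfl⟩
      exact ⟨C.comp Δ Γ, cl_comp_zero' Δ hΓ, TheoryData.act_comp _ _ _ _⟩)
    (m := m) (y := y) ⟨dg C.toTheoryData _, act_dg _ _⟩ (by
      rintro ⟨Γ, hΓ, h⟩
      exact hy (hf m Γ y hΓ h))
  have h1 := tendsto_r C.S X hM.growth m hg hgg
  have h2 : (1 : ℝ) ≤ finrank W.K (LinearMap.range g) := by exact_mod_cast rank_pos hg0
  filter_upwards [h1.eventually (lt_mem_nhds (show 1 - ε < _ by linarith))] with n hn
  have hp : (0 : ℝ) < C.S.a (pw X n) := by exact_mod_cast hM.pos n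
  rw [lt_div_iff₀ hp] at hn
  have := hM.fin n
  have h3 := Submodule.finrank_mono (hU n)
  have h4 : (finrank W.K (ncyc C y n) : ℝ) + C.S.r (pw X m) g (pw X n) ≤
      finrank W.K (cyc C y n) := by
    rw [hdim n] at h3
    exact_mod_cast h3
  linarith

lemma chain_aux (hM : Main C X) (hf : NoFix C X) {d m : ℕ} {y : C.A (pw X m)}
    (h : C.Composite X d m y) : y ≠ 0 → ∀ ε : ℝ, 0 < ε → ∀ᶠ n in atTop,
      ((d : ℝ) - ε) * C.S.a (pw X n) + finrank W.K (cyc C y n) ≤
        finrank W.K (C.A (pw X n)) := by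
  induction h with
  | zero m y =>
    intro _ ε hε
    refine Eventually.of_forall fun n => ?_
    have := hM.fin n
    have h1 : (finrank W.K (cyc C y n) : ℝ) ≤ finrank W.K (C.A (pw X n)) := by
      exact_mod_cast Submodule.finrank_le _
    have h2 : (0 : ℝ) ≤ C.S.a (pw X n) := Nat.cast_nonneg _
    push_cast
    nlinarith
  | succ j l m Γ hΓ y hy ih =>
    intro hy0 ε hε
    have hy1 : y ≠ 0 := by
      rintro rfl
      exact hy0 (TheoryData.act_map_zero _ _)
    have hε2 : 0 < ε / 2 := by positivity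
    filter_upwards [ih hy1 (ε / 2) hε2, cyc_step hM hf hy1 hε2] with n h1 h2
    have hΓ0 : C.cl _ Γ = 0 := by
      have h3 := numTriv_iff.1 hΓ
      have h4 : C.S.Num ((pw X l).prod (pw X m)) = ⊥ := by
        rw [eq_bot_iff]
        intro c hc
        have h5 := Sys.Num.map (pwAdd X l m).inv hc
        rw [hM.num, Submodule.mem_bot] at h5
        rw [Submodule.mem_bot]
        exact map_inj_of_iso (pwAdd X l m).symm (h5.trans (map_zero _).symm)
      rw [h4, Submodule.mem_bot] at h3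
      exact h3
    have h3 : cyc C (C.act Γ y) n ≤ ncyc C y n := by
      rintro _ ⟨Δ, rfl⟩
      exact ⟨C.comp Γ Δ, cl_comp_zero hΓ0 Δ, TheoryData.act_comp _ _ _ _⟩
    have := hM.fin n
    have h4 : (finrank W.K (cyc C (C.act Γ y) n) : ℝ) ≤ finrank W.K (ncyc C y n) := by
      exact_mod_cast Submodule.finrank_mono h3
    push_cast
    linarith

/-- **Lower bound.** A nonzero class obtained by `d` homologically trivial correspondences. -/
lemma chain_lower (hM : Main C X) (hf : NoFix C X) {d m : ℕ} {y : C.A (pw X m)}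
    (h : C.Composite X d m y) (hy : y ≠ 0) {ε : ℝ} (hε : 0 < ε) : ∀ᶠ n in atTop,
      ((d : ℝ) + 1 - ε) * C.S.a (pw X n) ≤ finrank W.K (C.A (pw X n)) := by
  have hε2 : 0 < ε / 2 := by positivity
  filter_upwards [chain_aux hM hf h hy (ε / 2) hε2, cyc_step hM hf hy hε2] with n h1 h2
  have h3 : (0 : ℝ) ≤ finrank W.K (ncyc C y n) := Nat.cast_nonneg _
  linarith

end Pool.Agent.N132.IX
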