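import Pool.Agent.W550.Corr.Basic
import Pool.Agent.Y133.Half.PwDefs

/-!
# Theories of algebraic cycles: definitions
-/

open CategoryTheory AlgebraicGeometry
open scoped ENNReal

universe u v w

namespace Pool.Agent.N132.IX

open Pool.Agent.H914 Pool.Agent.H914.VarClass Pool.Agent.H914.VarClass.Obj Pool.Agent.W492.BB
  Pool.Agent.W550.Corr Pool.Agent.Y133.Half

variable {k : Type u} [Field k] {𝒱 : VarClass k} {ops : CycleOps 𝒱}

/-- A theory of algebraic cycles with coefficients in the coefficient field `K` of the Weil
cohomology theory `W`, on the varieties of the class `𝒱`: commutative graded `K`-algebras `A(X)`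
with pull-backs and push-forwards (functoriality, projection formula, base change for projections,
`f_* 1 = 1` for isomorphisms `f`), `A^0(X) = K`, `A^i(X) = 0` for `i > dim X`, and cycle class maps
`cl : A(X) → H(X)`, `K`-algebra homomorphisms compatible with pull-backs and push-forwards, mapping
`A^i(X)` to `H^(2i)(X)`; some class on `X` has degree one. The intended examples are the cycles with
coefficients in `K` modulo rational equivalence (that is, `CH^*(X) ⊗ K`), or modulo any adequate
equivalence relation which is finer than homological equivalence. -/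
structure CycleTheory (W : WeilCohomology.{u, v} ops) extends TheoryData.{u, w, v} 𝒱 W.K where
  isTheory : IsTheory toTheoryData 1
  hasIso : HasIso toTheoryData
  mul_comm : ∀ {X : 𝒱.Obj} (a b : A X), a * b = b * a
  gr_zero : ∀ (X : 𝒱.Obj) (x : A X), x ∈ gr X 0 → ∃ q : W.K, x = q • (1 : A X)
  gr_top : ∀ (X : 𝒱.Obj) (i : ℤ) (x : A X), x ∈ gr X i → (X.dim : ℤ) < i → x = 0
  /-- the cycle class map -/
  cl : ∀ X : 𝒱.Obj, A X →ₐ[W.K] W.H X
  cl_mem : ∀ {X : 𝒱.Obj} {i : ℕ} {z : A X}, z ∈ gr X i → cl X z ∈ W.gr X (2 * i)
  cl_pull : ∀ {X Y : 𝒱.Obj} (f : X ⟶ Y) (z : A Y), cl X (pull f z) = W.map f (cl Y z)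
  cl_push : ∀ {X Y : 𝒱.Obj} (f : X ⟶ Y) (z : A X), cl Y (push f z) = W.push f (cl X z)
  exists_point : ∀ X : 𝒱.Obj, ∃ z : A X, W.tr X (cl X z) = 1

variable {W : WeilCohomology.{u, v} ops}

namespace CycleTheory

variable (C : CycleTheory.{u, v, w} W)

instance : IsTheory C.toTheoryData 1 := C.isTheory
instance : HasIso C.toTheoryData := C.hasIso

variable {C} in
/-- The class `x` is numerically trivial: all products `x y` have degree zero. -/
def NumTriv {X : 𝒱.Obj} (x : C.A X) : Prop := ∀ y : C.A X, W.tr X (C.cl X (x * y)) = 0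

/-- The subspace of the numerically trivial classes. -/
def num (X : 𝒱.Obj) : Submodule W.K (C.A X) where
  carrier := {x | NumTriv x}
  zero_mem' := fun y => by rw [zero_mul, map_zero, map_zero]
  add_mem' := fun {a b} ha hb y => by rw [add_mul, map_add, map_add, ha y, hb y, add_zero]
  smul_mem' := fun c a ha y => by rw [smul_mul_assoc, map_smul, map_smul, ha y, smul_zero]

/-- The dimension of the space of the classes on `X` modulo numerical equivalence. -/
noncomputable def numRank (X : 𝒱.Obj) : ℕ := Module.finrank W.K (C.A X ⧸ C.num X)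

/-- The dimension of `A(X)`, a natural number or infinity. -/
noncomputable def dim (X : 𝒱.Obj) : ℕ∞ := Cardinal.toENat (Module.rank W.K (C.A X))

/-- The ratio of the dimension of `A(X)` to its dimension modulo numerical equivalence. -/
noncomputable def ratio (X : 𝒱.Obj) : ℝ≥0∞ := (C.dim X : ℝ≥0∞) / (C.numRank X : ℝ≥0∞)

/-- `Composite C X j n y`: the class `y` on the power `X^(n+1)` is obtained from some class by
applying successively `j` numerically trivial correspondences between powers of `X`. -/
inductive Composite (X : 𝒱.Obj) : ℕ → ∀ n, C.A (pw X n) → Prop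
  | zero (n : ℕ) (y : C.A (pw X n)) : Composite X 0 n y
  | succ (j m n : ℕ) (Γ : C.A ((pw X m).prod (pw X n))) (hΓ : NumTriv Γ) (y : C.A (pw X m))
      (hy : Composite X j m y) : Composite X (j + 1) n (C.act Γ y)

/-- The filtration by composites: `C.fil X j n` is the subspace `F^j A(X^(n+1))` spanned by the
classes obtained by applying successively `j` numerically trivial correspondences. -/
noncomputable def fil (X : 𝒱.Obj) (j n : ℕ) : Submodule W.K (C.A (pw X n)) :=
  Submodule.span W.K {y | C.Composite X j n y}

/-- `NComp C X j m n Γ`: the correspondence `Γ` from `X^(m+1)` to `X^(n+1)` is the composition of `j`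
numerically trivial correspondences between powers of `X`. -/
inductive NComp (X : 𝒱.Obj) : ℕ → ∀ m n, C.A ((pw X m).prod (pw X n)) → Prop
  | one (m n : ℕ) (Γ : C.A ((pw X m).prod (pw X n))) (hΓ : NumTriv Γ) : NComp X 1 m n Γ
  | succ (j m n l : ℕ) (Γ : C.A ((pw X m).prod (pw X n))) (Δ : C.A ((pw X n).prod (pw X l)))
      (hΓ : NComp X j m n Γ) (hΔ : NumTriv Δ) : NComp X (j + 1) m l (C.comp Γ Δ)

variable {C} in
/-- The external powers of a class: `C.xpow x j` is the class `x × ⋯ × x` (`j + 1` factors) on
`X^(j+1)`. -/
noncomputable def xpow {X : 𝒱.Obj} (x : C.A X) : ∀ j : ℕ, C.A (pw X j)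
  | 0 => x
  | j + 1 => C.ext (X := pw X j) (Y := X) (xpow x j) x

/-- No nonzero class is smash-nilpotent. This holds for the theory of the cycles modulo
smash-nilpotence. -/
def SmashReduced : Prop := ∀ {X : 𝒱.Obj} (x : C.A X) (j : ℕ), xpow x j = 0 → x = 0

end CycleTheory

end Pool.Agent.N132.IX
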