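import Pool.Agent.N132.IX.Phantom

/-!
# The index law
-/

open CategoryTheory AlgebraicGeometry
open scoped ENNReal

universe u v w

namespace Pool.Agent.N132.IX

open Module Filter Topology
open Pool.Agent.H914 Pool.Agent.H914.VarClass Pool.Agent.H914.VarClass.Obj
  Pool.Agent.H914.WeilCohomology Pool.Agent.W492.BB Pool.Agent.W550.Corr Pool.Agent.Y133.Half

variable {k : Type u} [Field k] {𝒱 : VarClass k} {ops : CycleOps 𝒱}
  {W : WeilCohomology.{u, v} ops} {X Y Z P Q V : 𝒱.Obj} {C : CycleTheory.{u, v, w} W}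

lemma numRank_eq (C : CycleTheory.{u, v, w} W) (Z : 𝒱.Obj) : C.numRank Z = C.S.a Z := by
  let f : C.A Z →ₗ[W.K] C.S.C Z := (C.cl Z).toLinearMap.rangeRestrict
  have hf : Function.Surjective f := LinearMap.surjective_rangeRestrict _
  have h1 : LinearMap.ker (C.S.F Z 1 ∘ₗ f) = C.num Z := by
    ext x
    rw [LinearMap.mem_ker]
    constructor
    · intro h y
      have h2 : C.S.F Z 1 (f x) (f y) = 0 := by
        have := congrArg (fun φ : C.S.C Z →ₗ[W.K] W.K => φ (f y)) h
        exact this
      rw [map_mul]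
      exact h2
    · intro h
      apply LinearMap.ext
      intro c
      obtain ⟨y, rfl⟩ := hf c
      have h2 := h y
      rw [map_mul] at h2
      exact h2
  have h2 : LinearMap.range (C.S.F Z 1 ∘ₗ f) = LinearMap.range (C.S.F Z 1) :=
    LinearMap.range_comp_of_range_eq_top _ (LinearMap.range_eq_top.2 hf)
  rw [CycleTheory.numRank, ← h1, (LinearMap.quotKerEquivRange _).finrank_eq, h2]
  rfl

lemma exists_lam (C : CycleTheory.{u, v, w} W) (X : 𝒱.Obj) : ∃ l ∈ C.S.C X, W.tr X l = 1 := by
  obtain ⟨z, hz⟩ := C.exists_point X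
  exact ⟨_, C.cl_mem_S z, hz⟩

lemma a_pos (C : CycleTheory.{u, v, w} W) (X : 𝒱.Obj) : 0 < C.S.a X := by
  obtain ⟨l, hl, hl1⟩ := exists_lam C X
  exact C.S.a_pos hl hl1

lemma push_fst_degree (C : CycleTheory.{u, v, w} W) (X Y : 𝒱.Obj) (x : C.A X) :
    C.push (fst Y X) (C.pull (snd Y X) x) = W.tr X (C.cl X x) • (1 : C.A Y) := by
  have e1 : fst Y X = sw Y X ≫ snd X Y := (lift_snd _ _).symm
  have e2 : snd Y X = sw Y X ≫ fst X Y := (lift_fst _ _).symm
  rw [e2, TheoryData.pull_comp, e1, TheoryData.push_comp,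
    push_pull_iso C.toTheoryData (sw Y X) (sw X Y) sw_sw sw_sw, push_pull_degree]

lemma pull_fst_injective (C : CycleTheory.{u, v, w} W) (X Y : 𝒱.Obj) :
    Function.Injective (C.pull (fst X Y)) := by
  obtain ⟨z, hz⟩ := C.exists_point Y
  intro a b hab
  have h : ∀ a : C.A X, C.push (fst X Y) (C.pull (fst X Y) a * C.pull (snd X Y) z) = a := by
    intro a
    rw [TheoryData.proj_left, push_fst_degree, hz, one_smul, mul_one]
  rw [← h a, ← h b, hab]

lemma not_finite_succ {n : ℕ} (h : ¬ Module.Finite W.K (C.A (pw X n))) :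
    ¬ Module.Finite W.K (C.A (pw X (n + 1))) := by
  intro h2
  apply h
  have h3 : Module.Finite W.K (C.A ((pw X n).prod X)) := h2
  exact Module.Finite.of_injective (C.pull (fst (pw X n) X)).toLinearMap
    (pull_fst_injective C (pw X n) X)

lemma dim_eq [Module.Finite W.K (C.A Z)] : C.dim Z = (finrank W.K (C.A Z) : ℕ∞) := by
  rw [CycleTheory.dim, ← finrank_eq_rank, Cardinal.toENat_nat]

lemma dim_top (h : ¬ Module.Finite W.K (C.A Z)) : C.dim Z = ⊤ := by
  rw [CycleTheory.dim, Cardinal.toENat_eq_top]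
  by_contra h2
  exact h (Module.rank_lt_aleph0_iff.1 (not_le.1 h2))

/-- The basic alternative. -/
theorem alternative (C : CycleTheory.{u, v, w} W) (X : 𝒱.Obj) :
    (∀ N : ℕ, ∀ᶠ n in atTop, ((N * C.numRank (pw X n) : ℕ) : ℕ∞) ≤ C.dim (pw X n)) ∨
      ∃ N : ℕ, Main C X ∧ Lim C X (fun _ => ⊤) N ∧ NoFix C X := by
  by_cases hfin : ∀ n, Module.Finite W.K (C.A (pw X n))
  swap
  · left
    push Not at hfin
    obtain ⟨n₁, hn₁⟩ := hfin
    intro N
    filter_upwards [eventually_ge_atTop n₁] with n hn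
    have : ¬ Module.Finite W.K (C.A (pw X n)) := by
      induction n, hn using Nat.le_induction with
      | base => exact hn₁
      | succ n _ ih => exact not_finite_succ ih
    rw [dim_top this]
    exact le_top
  have hdim : ∀ n, C.dim (pw X n) = (finrank W.K (C.A (pw X n)) : ℕ∞) := fun n => by
    have := hfin n
    exact dim_eq
  have key : (∀ N : ℕ, ∀ᶠ n in atTop, N * C.S.a (pw X n) ≤ finrank W.K (C.A (pw X n))) →
      ∀ N : ℕ, ∀ᶠ n in atTop, ((N * C.numRank (pw X n) : ℕ) : ℕ∞) ≤ C.dim (pw X n) := by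
    intro h N
    filter_upwards [h N] with n hn
    rw [hdim n, numRank_eq]
    exact_mod_cast hn
  have hle : ∀ n, finrank W.K (C.S.C (pw X n)) ≤ finrank W.K (C.A (pw X n)) := fun n => by
    have := hfin n
    exact LinearMap.finrank_range_le _
  rcases C.S.num_or C.S (fun _ => le_rfl) X with hN | hN
  swap
  · left
    apply key
    intro N
    obtain ⟨n₀, hn₀⟩ := hN N
    filter_upwards [eventually_ge_atTop n₀] with n hn
    exact (hn₀ n hn).trans (hle n)
  obtain ⟨l, hl, hl1⟩ := exists_lam C X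
  have h1 : (1 : W.H X) ≠ 0 := one_ne_zero_of (ne_zero_of_tr hl1)
  have hX : 0 < finrank W.K (W.H X) := by
    have : Nontrivial (W.H X) := ⟨⟨1, 0, h1⟩⟩
    exact Module.finrank_pos
  have hpos : ∀ n, 0 < C.S.al X n := fun n => a_pos C _
  have haC : ∀ n, C.S.a (pw X n) = finrank W.K (C.S.C (pw X n)) := by
    intro n
    have h2 := C.S.a_add_num (pw X n)
    rw [hN n, finrank_bot, add_zero] at h2
    exact h2
  have hB : ∀ c : ℝ, 0 ≤ c → c < (finrank W.K (W.H X) : ℝ) ^ 2 →
      ∃ l₀, ∀ l ≥ l₀, c * C.S.al X l ≤ C.S.al X (l + 1) := by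
    rcases ratio_dichotomy hpos (C.S.al_convex X) ((finrank W.K (W.H X) : ℝ) ^ 2) with
      ⟨c, hc, hcB, h⟩ | hB
    · exfalso
      obtain ⟨n₀, hn₀⟩ := Sys.small_of (S := C.S) (T := C.S) hc hcB h hX
        (ε := 1 / 2) (by positivity)
      have h2 := hn₀ n₀ le_rfl
      have h3 : (0 : ℝ) < C.S.a (pw X n₀) := by exact_mod_cast a_pos C _
      rw [← haC] at h2
      linarith
    · exact hB
  have hM : Main C X := ⟨hfin, hN, ⟨hB, l, hl, hl1⟩, fun n => a_pos C _⟩
  by_cases hf : NoFix C X
  swap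
  · exact Or.inl (key (phantom_inf hM hf))
  -- the filtration
  by_cases hd : ∃ d, ∀ n, C.fil X d n = ⊥
  · obtain ⟨d, hd⟩ := hd
    have h0 : Lim C X (C.fil X d) 0 := by
      rw [Lim]
      refine tendsto_const_nhds.congr fun n => ?_
      rw [hd n, finrank_bot]
      simp
    have htop : C.fil X 0 = fun _ => ⊤ := funext fun n => fil_zero n
    rcases lim_of_fil hM d (Or.inl ⟨0, h0⟩) with ⟨N, hN'⟩ | hI
    · rw [htop] at hN'
      exact Or.inr ⟨N, hM, hN', hf⟩
    · left
      apply key
      intro N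
      rw [htop] at hI
      filter_upwards [hI N] with n hn
      rwa [finrank_top] at hn
  · left
    apply key
    push Not at hd
    intro N
    obtain ⟨n, hn⟩ := hd N
    obtain ⟨y, hy, hy0⟩ : ∃ y, C.Composite X N n y ∧ y ≠ 0 := by
      by_contra hcon
      push Not at hcon
      apply hn
      rw [CycleTheory.fil, Submodule.span_eq_bot]
      exact fun y hy => hcon y hy
    filter_upwards [chain_lower hM hf hy hy0 one_pos] with q hq
    have h3 : ((N : ℝ) + 1 - 1) = N := by ring
    rw [h3] at hq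
    exact_mod_cast hq

/-- A nonzero class obtained by `d` numerically trivial correspondences forces the limit to be at
least `d + 1`. -/
lemma fil_bot {N : ℕ} (hM : Main C X) (hf : NoFix C X) (hL : Lim C X (fun _ => ⊤) N) (n : ℕ) :
    C.fil X N n = ⊥ := by
  rw [CycleTheory.fil, Submodule.span_eq_bot]
  intro y hy
  by_contra hy0
  have h1 := chain_lower hM hf hy hy0 (ε := 1 / 2) (by positivity)
  have h2 : ∀ᶠ q in atTop, (finrank W.K ((⊤ : Submodule W.K (C.A (pw X q)))) : ℝ) /
      C.S.a (pw X q) < N + 1 / 2 := hL.eventually (gt_mem_nhds (by linarith))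
  obtain ⟨q, hq1, hq2⟩ := (h1.and h2).exists
  have hp : (0 : ℝ) < C.S.a (pw X q) := by exact_mod_cast hM.pos q
  rw [finrank_top, div_lt_iff₀ hp] at hq2
  nlinarith

lemma fil_one_iff {n : ℕ} {x : C.A (pw X n)} : x ∈ C.fil X 1 n ↔ CycleTheory.NumTriv x := by
  constructor
  · intro hx
    refine Submodule.span_induction (p := fun x _ => CycleTheory.NumTriv x) ?_ ?_ ?_ ?_ hx
    · intro y hy
      cases hy with
      | succ _ m _ Γ hΓ z hz => exact numTriv_act hΓ z
    · exact (C.num _).zero_mem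
    · exact fun a b _ _ ha hb => (C.num _).add_mem ha hb
    · exact fun c a _ ha => (C.num _).smul_mem c ha
  · intro hx
    have h1 : C.act (C.mulCorr x) 1 = x := by rw [TheoryData.act_mulCorr, mul_one]
    rw [← h1]
    exact Submodule.subset_span (.succ 0 n n _ (numTriv_push _ hx) _ (.zero _ _))

/-- **The index law.** -/
theorem index_law (C : CycleTheory.{u, v, w} W) (X : 𝒱.Obj) :
    ∃ N : ℕ∞, N ≠ 0 ∧ Tendsto (fun n => C.ratio (pw X n)) atTop (𝓝 (N : ℝ≥0∞)) ∧
      (N = 1 ↔ ∀ (n : ℕ) (x : C.A (pw X n)), CycleTheory.NumTriv x → x = 0) ∧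
      ∀ d : ℕ, N = d → (∀ n, Module.Finite W.K (C.A (pw X n))) ∧
        (∀ (n : ℕ) (x : C.A (pw X n)), CycleTheory.NumTriv x → C.cl _ x = 0) ∧
        ∀ n, C.fil X d n = ⊥ := by
  have hr : ∀ n, C.numRank (pw X n) ≠ 0 := fun n => by
    rw [numRank_eq]
    exact (a_pos C _).ne'
  have hr0 : ∀ n, (C.numRank (pw X n) : ℝ≥0∞) ≠ 0 := fun n => by exact_mod_cast hr n
  have hr1 : ∀ n, (C.numRank (pw X n) : ℝ≥0∞) ≠ ⊤ := fun n => ENNReal.natCast_ne_top _
  rcases alternative C X with h | ⟨N, hM, hL, hf⟩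
  · have ht : Tendsto (fun n => C.ratio (pw X n)) atTop (𝓝 ⊤) := by
      apply ENNReal.tendsto_nhds_top
      intro N
      filter_upwards [h (N + 1)] with n hn
      have h2 : ((N + 1 : ℕ) : ℝ≥0∞) ≤ C.ratio (pw X n) := by
        rw [CycleTheory.ratio, ENNReal.le_div_iff_mul_le (Or.inl (hr0 n)) (Or.inl (hr1 n))]
        have h3 : (((N + 1) * C.numRank (pw X n) : ℕ) : ℕ∞).toENNReal ≤
            (C.dim (pw X n)).toENNReal := ENat.toENNReal_le.2 hn
        rw [ENat.toENNReal_coe] at h3
        exact_mod_cast h3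
      refine lt_of_lt_of_le ?_ h2
      exact_mod_cast Nat.lt_succ_self N
    refine ⟨⊤, by simp, by simpa using ht, ⟨fun h1 => absurd h1 (by simp), fun h1 => ?_⟩,
      fun d hd => absurd hd (by simp)⟩
    -- if there are no numerically trivial classes the ratio is one
    exfalso
    have h2 : ∀ n, C.ratio (pw X n) = 1 := by
      intro n
      have h3 : C.num (pw X n) = ⊥ := by
        rw [eq_bot_iff]
        intro x hx
        rw [Submodule.mem_bot]
        exact h1 n x hx
      have h4 : Function.Injective (C.cl (pw X n)) := by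
        rw [injective_iff_map_eq_zero]
        intro x hx
        exact h1 n x (numTriv_of_cl hx)
      have h5 : Module.Finite W.K (C.A (pw X n)) :=
        Module.Finite.of_injective (C.cl (pw X n)).toLinearMap h4
      have h6 : C.numRank (pw X n) = finrank W.K (C.A (pw X n)) := by
        rw [CycleTheory.numRank, h3]
        exact (Submodule.quotEquivOfEqBot ⊥ rfl).finrank_eq
      rw [CycleTheory.ratio, dim_eq, ← h6, ENat.toENNReal_coe]
      exact ENNReal.div_self (hr0 n) (hr1 n)
    have h3 : Tendsto (fun n => C.ratio (pw X n)) atTop (𝓝 1) :=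
      tendsto_const_nhds.congr fun n => (h2 n).symm
    exact ENNReal.one_ne_top (tendsto_nhds_unique h3 ht)
  · have hdim : ∀ n, C.dim (pw X n) = (finrank W.K (C.A (pw X n)) : ℕ∞) := fun n => by
      have := hM.fin n
      exact dim_eq
    have hrat : ∀ n, C.ratio (pw X n) = ENNReal.ofReal
        ((finrank W.K (C.A (pw X n)) : ℝ) / C.S.a (pw X n)) := by
      intro n
      have hp : (0 : ℝ) < C.S.a (pw X n) := by exact_mod_cast hM.pos n
      rw [CycleTheory.ratio, hdim n, numRank_eq, ENat.toENNReal_coe, ENNReal.ofReal_div_of_pos hp,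
        ENNReal.ofReal_natCast, ENNReal.ofReal_natCast]
    have ht : Tendsto (fun n => C.ratio (pw X n)) atTop (𝓝 (N : ℝ≥0∞)) := by
      have h2 : Tendsto (fun n => ENNReal.ofReal ((finrank W.K (C.A (pw X n)) : ℝ) /
          C.S.a (pw X n))) atTop (𝓝 (ENNReal.ofReal N)) := by
        refine (ENNReal.continuous_ofReal.tendsto _).comp ?_
        refine Tendsto.congr (fun n => ?_) hL
        rw [finrank_top]
      rw [ENNReal.ofReal_natCast] at h2
      exact h2.congr fun n => (hrat n).symm
    have hbot := fil_bot hM hf hL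
    have hN0 : N ≠ 0 := by
      rintro rfl
      have h2 := hbot 0
      rw [fil_zero] at h2
      obtain ⟨z, hz⟩ := C.exists_point (pw X 0)
      have h3 : z ∈ (⊤ : Submodule W.K (C.A (pw X 0))) := Submodule.mem_top
      rw [h2, Submodule.mem_bot] at h3
      rw [h3, map_zero, map_zero] at hz
      exact zero_ne_one hz
    have hnum : ∀ (n : ℕ) (x : C.A (pw X n)), CycleTheory.NumTriv x → C.cl _ x = 0 := by
      intro n x hx
      have h2 := numTriv_iff.1 hx
      rw [hM.num n, Submodule.mem_bot] at h2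
      exact h2
    refine ⟨N, by exact_mod_cast hN0, by simpa using ht, ⟨fun h1 n x hx => ?_, fun h1 => ?_⟩,
      fun d hd => ?_⟩
    · have h2 : N = 1 := by exact_mod_cast h1
      have h3 := fil_one_iff.2 hx
      rw [← h2, hbot, Submodule.mem_bot] at h3
      exact h3
    · have h2 : ∀ n, C.ratio (pw X n) = 1 := by
        intro n
        have h3 : C.num (pw X n) = ⊥ := by
          rw [eq_bot_iff]
          intro x hx
          rw [Submodule.mem_bot]
          exact h1 n x hx
        have := hM.fin n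
        have h6 : C.numRank (pw X n) = finrank W.K (C.A (pw X n)) := by
          rw [CycleTheory.numRank, h3]
          exact (Submodule.quotEquivOfEqBot ⊥ rfl).finrank_eq
        rw [CycleTheory.ratio, dim_eq, ← h6, ENat.toENNReal_coe]
        exact ENNReal.div_self (hr0 n) (hr1 n)
      have h3 : Tendsto (fun n => C.ratio (pw X n)) atTop (𝓝 1) :=
        tendsto_const_nhds.congr fun n => (h2 n).symm
      have h4 := tendsto_nhds_unique h3 ht
      have h5 : N = 1 := by exact_mod_cast h4.symm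
      rw [h5]
      rfl
    · have h2 : N = d := by exact_mod_cast hd
      subst h2
      exact ⟨hM.fin, hnum, hbot⟩

end Pool.Agent.N132.IX
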