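import Pool.Agent.N132.IX.Final

/-!
# The graded pieces
-/

open CategoryTheory AlgebraicGeometry
open scoped ENNReal

universe u v w

namespace Pool.Agent.N132.IX

open Module Filter Topology
open Pool.Agent.H914 Pool.Agent.H914.VarClass Pool.Agent.H914.VarClass.Obj
  Pool.Agent.H914.WeilCohomology Pool.Agent.W492.BB Pool.Agent.W550.Corr Pool.Agent.Y133.Half

variable {k : Type u} [Field k] {𝒱 : VarClass k} {ops : CycleOps 𝒱}
  {W : WeilCohomology.{u, v} ops} {X Y Z P Q V : 𝒱.Obj} {C : CycleTheory.{u, v, w} W}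

/-- The dimensions of the quotients `G n / G' n` are asymptotic to `N` times the numerical ranks. -/
def RLim (C : CycleTheory.{u, v, w} W) (X : 𝒱.Obj)
    (G' G : ∀ n, Submodule W.K (C.A (pw X n))) (N : ℕ) : Prop :=
  Tendsto (fun n => ((finrank W.K (G n) : ℝ) - finrank W.K (G' n)) / C.S.a (pw X n)) atTop (𝓝 N)

lemma rlim_bound (hM : Main C X) {G' U G : ∀ n, Submodule W.K (C.A (pw X n))}
    (hle : ∀ n, U n ≤ G n)
    {N N₀ : ℕ} (hU : RLim C X G' U N)
    (hf : ∃ᶠ n in atTop, finrank W.K (G n) < N₀ * C.S.a (pw X n) + finrank W.K (G' n)) :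
    N ≤ N₀ := by
  by_contra hlt
  push Not at hlt
  have h1 : (N₀ : ℝ) < N := by exact_mod_cast hlt
  have h2 := hU.eventually (lt_mem_nhds h1)
  obtain ⟨n, hn1, hn2⟩ := (hf.and_eventually h2).exists
  have hp : (0 : ℝ) < C.S.a (pw X n) := by exact_mod_cast hM.pos n
  rw [lt_div_iff₀ hp] at hn2
  have := hM.fin n
  have h3 := Submodule.finrank_mono (hle n)
  have h4 : ((N₀ * C.S.a (pw X n) + finrank W.K (G' n) : ℕ) : ℝ) < (finrank W.K (U n) : ℕ) := by
    push_cast
    linarith
  have h5 : N₀ * C.S.a (pw X n) + finrank W.K (G' n) < finrank W.K (U n) := by exact_mod_cast h4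
  omega

/-- Iteration of the composition step, relative form. -/
lemma iterate_rel (hM : Main C X) {G' G : ∀ n, Submodule W.K (C.A (pw X n))}
    (hG' : Stab C X G') (hG : Stab C X G) (hle : ∀ n, G' n ≤ G n)
    (h0 : ∀ (m n : ℕ) (Γ : C.A ((pw X m).prod (pw X n))), C.cl _ Γ = 0 → ∀ y ∈ G m,
      C.act Γ y ∈ G' n) :
    (∃ N, RLim C X G' G N ∧ (N = 0 → G' = G)) ∨
      ∀ N : ℕ, ∀ᶠ n in atTop, N * C.S.a (pw X n) + finrank W.K (G' n) ≤ finrank W.K (G n) := by
  classical
  by_cases hI : ∀ N : ℕ, ∀ᶠ n in atTop,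
      N * C.S.a (pw X n) + finrank W.K (G' n) ≤ finrank W.K (G n)
  · exact Or.inr hI
  left
  push Not at hI
  obtain ⟨N₀, hN₀⟩ := hI
  let R : ℕ → Prop := fun N => ∃ U : ∀ n, Submodule W.K (C.A (pw X n)), Stab C X U ∧
    (∀ n, G' n ≤ U n) ∧ (∀ n, U n ≤ G n) ∧ RLim C X G' U N
  have hR : ∀ N, R N → N ≤ N₀ := fun N ⟨U, _, _, hU, hL⟩ => rlim_bound hM hU hL hN₀
  have h00 : RLim C X G' G' 0 := by
    rw [RLim]
    refine tendsto_const_nhds.congr fun n => ?_
    rw [sub_self, zero_div, Nat.cast_zero]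
  have h1 : R 0 := ⟨G', hG', fun _ => le_rfl, hle, h00⟩
  have stepR : ∀ {N : ℕ} {U : ∀ n, Submodule W.K (C.A (pw X n))}, Stab C X U →
      (∀ n, G' n ≤ U n) → (∀ n, U n ≤ G n) → RLim C X G' U N → U ≠ G → ∃ N₁, N < N₁ ∧ R N₁ := by
    intro N U hU hU1 hU2 hL hne
    have heq : ¬ ∀ n, ∀ y ∈ G n, y ∈ U n := fun h =>
      hne (funext fun n => le_antisymm (hU2 n) (h n))
    push Not at heq
    obtain ⟨m, y, hy, hy'⟩ := heq
    obtain ⟨g, hg, hgg, hg0, U', hS, hU'1, hU'2, hdim⟩ := step C X hM.fin hM.num hU hG hU2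
      (fun m n Γ hΓ y hy => hU1 n (h0 m n Γ hΓ y hy)) hy hy'
    have h2 := tendsto_r C.S X hM.growth m hg hgg
    have h3 : RLim C X G' U' (N + finrank W.K (LinearMap.range g)) := by
      have h4 := hL.add h2
      rw [RLim]
      push_cast
      refine h4.congr fun n => ?_
      rw [hdim n]
      push_cast
      rw [← add_div]
      congr 1
      ring
    have h6 := rank_pos hg0
    exact ⟨_, by omega, U', hS, fun n => (hU1 n).trans (hU'1 n), hU'2, h3⟩
  obtain ⟨U, hU, hU1, hU2, hL⟩ := Nat.findGreatest_spec (hR _ h1) h1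
  set N := Nat.findGreatest R N₀ with hN
  by_cases heq : U = G
  · refine ⟨N, heq ▸ hL, fun hN0 => ?_⟩
    by_contra hne
    obtain ⟨N₁, hN₁, hRN⟩ := stepR hG' (fun _ => le_rfl) hle h00 hne
    exact Nat.findGreatest_is_greatest (P := R) (n := N₀) (show N < N₁ by omega) (hR _ hRN) hRN
  · exfalso
    obtain ⟨N₁, hN₁, hRN⟩ := stepR hU hU1 hU2 hL heq
    exact Nat.findGreatest_is_greatest (P := R) (n := N₀) hN₁ (hR _ hRN) hRN

lemma numTriv_cl_zero (hM : Main C X) {m n : ℕ} {Γ : C.A ((pw X m).prod (pw X n))}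
    (h : CycleTheory.NumTriv Γ) : C.cl _ Γ = 0 := by
  have h3 := numTriv_iff.1 h
  have h4 : C.S.Num ((pw X m).prod (pw X n)) = ⊥ := by
    rw [eq_bot_iff]
    intro c hc
    have h5 := Sys.Num.map (pwAdd X m n).inv hc
    rw [hM.num, Submodule.mem_bot] at h5
    rw [Submodule.mem_bot]
    exact map_inj_of_iso (pwAdd X m n).symm (h5.trans (map_zero _).symm)
  rw [h4, Submodule.mem_bot] at h3
  exact h3

lemma fil_stationary {j : ℕ} (h : C.fil X (j + 1) = C.fil X j) :
    C.fil X (j + 1 + 1) = C.fil X (j + 1) := by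
  funext n
  apply le_antisymm (fil_succ_le _ _)
  rw [CycleTheory.fil, Submodule.span_le]
  intro x hx
  cases hx with
  | succ _ m _ Γ hΓ y hy =>
    apply act_fil hΓ
    rw [h]
    exact Submodule.subset_span hy

lemma fil_antitone {i j : ℕ} (h : i ≤ j) (n : ℕ) : C.fil X j n ≤ C.fil X i n := by
  induction j, h using Nat.le_induction with
  | base => exact le_rfl
  | succ j _ ih => exact (fil_succ_le j n).trans ih

/-- **The graded pieces.** -/
theorem graded {d : ℕ} (hM : Main C X) (hf : NoFix C X) (hL : Lim C X (fun _ => ⊤) d) :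
    ∃ c : ℕ → ℕ, c 0 = 1 ∧ ∑ j ∈ Finset.range d, c j = d ∧
      (∀ j, Tendsto (fun n => ((finrank W.K (C.fil X j n) : ℝ) - finrank W.K (C.fil X (j + 1) n)) /
        C.S.a (pw X n)) atTop (𝓝 (c j))) ∧ ∀ j, c j = 0 ↔ ∀ n, C.fil X j n = ⊥ := by
  have hbot := fil_bot hM hf hL
  have hfin := hM.fin
  have key : ∀ j, ∃ N, RLim C X (C.fil X (j + 1)) (C.fil X j) N ∧
      (N = 0 → C.fil X (j + 1) = C.fil X j) := by
    intro j
    rcases iterate_rel hM (stab_fil (j + 1)) (stab_fil j) (fil_succ_le j)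
      (fun m n Γ hΓ y hy => act_fil (numTriv_of_cl hΓ) hy) with h | h
    · exact h
    · exfalso
      have h1 := h (d + 1)
      have h2 : ∀ᶠ q in atTop, (finrank W.K ((⊤ : Submodule W.K (C.A (pw X q)))) : ℝ) /
        C.S.a (pw X q) < d + 1 := hL.eventually (gt_mem_nhds (by linarith))
      obtain ⟨q, hq1, hq2⟩ := (h1.and h2).exists
      have hp : (0 : ℝ) < C.S.a (pw X q) := by exact_mod_cast hM.pos q
      rw [div_lt_iff₀ hp] at hq2
      have h3 : (finrank W.K (C.fil X j q) : ℝ) ≤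
          finrank W.K ((⊤ : Submodule W.K (C.A (pw X q)))) := by
        exact_mod_cast Submodule.finrank_mono le_top
      have h4 : ((d + 1 : ℕ) : ℝ) * C.S.a (pw X q) + finrank W.K (C.fil X (j + 1) q) ≤
          finrank W.K (C.fil X j q) := by exact_mod_cast hq1
      have h5 : (0 : ℝ) ≤ finrank W.K (C.fil X (j + 1) q) := Nat.cast_nonneg _
      push_cast at h4
      linarith
  choose c hc hc0 using key
  -- the first piece
  have hc1 : c 0 = 1 := by
    have h1 : Tendsto (fun n => ((finrank W.K (C.fil X 0 n) : ℝ) - finrank W.K (C.fil X 1 n)) /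
        C.S.a (pw X n)) atTop (𝓝 1) := by
      refine tendsto_const_nhds.congr fun n => ?_
      have hp : (C.S.a (pw X n) : ℝ) ≠ 0 := by exact_mod_cast (hM.pos n).ne'
      have h2 : C.fil X 1 n = C.num (pw X n) := by
        ext x
        exact fil_one_iff
      have h3 := Submodule.finrank_quotient_add_finrank (C.num (pw X n))
      rw [fil_zero, finrank_top, h2, eq_comm, div_eq_one_iff_eq hp, ← numRank_eq, ← h3,
        CycleTheory.numRank]
      push_cast
      ring
    have h2 := tendsto_nhds_unique (hc 0) h1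
    exact_mod_cast h2
  refine ⟨c, hc1, ?_, hc, fun j => ⟨fun h n => ?_, fun h => ?_⟩⟩
  · -- the sum
    have h1 : ∀ e : ℕ, Tendsto (fun n => ((finrank W.K (C.fil X 0 n) : ℝ) -
        finrank W.K (C.fil X e n)) / C.S.a (pw X n)) atTop
          (𝓝 ((∑ j ∈ Finset.range e, c j : ℕ) : ℝ)) := by
      intro e
      induction e with
      | zero =>
        refine tendsto_const_nhds.congr fun n => ?_
        simp
      | succ e ih =>
        rw [Finset.sum_range_succ, Nat.cast_add]
        refine (ih.add (hc e)).congr fun n => ?_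
        rw [← add_div]
        congr 1
        ring
    have h2 : Tendsto (fun n => ((finrank W.K (C.fil X 0 n) : ℝ) -
        finrank W.K (C.fil X d n)) / C.S.a (pw X n)) atTop (𝓝 (d : ℝ)) := by
      refine Tendsto.congr (fun n => ?_) hL
      rw [hbot n, finrank_bot, fil_zero]
      simp
    have h3 := tendsto_nhds_unique (h1 d) h2
    exact_mod_cast h3
  · -- vanishing
    have h1 : ∀ e, C.fil X (j + e + 1) = C.fil X (j + e) := by
      intro e
      induction e with
      | zero => exact hc0 j h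
      | succ e ih => exact fil_stationary ih
    have h2 : ∀ e, C.fil X (j + e) = C.fil X j := by
      intro e
      induction e with
      | zero => rfl
      | succ e ih => exact (h1 e).trans ih
    rw [← h2 d, eq_bot_iff, ← hbot n]
    exact fil_antitone (by omega) n
  · have h1 : Tendsto (fun n => ((finrank W.K (C.fil X j n) : ℝ) -
        finrank W.K (C.fil X (j + 1) n)) / C.S.a (pw X n)) atTop (𝓝 0) := by
      refine tendsto_const_nhds.congr fun n => ?_
      have h2 : C.fil X (j + 1) n = ⊥ := by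
        rw [eq_bot_iff, ← h n]
        exact fil_succ_le j n
      rw [h n, h2]
      simp
    have h2 := tendsto_nhds_unique (hc j) h1
    exact_mod_cast h2

end Pool.Agent.N132.IX
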