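import Pool.Agent.N132.IX.Parts

/-!
# Limits of the ratios
-/

open CategoryTheory AlgebraicGeometry

universe u v w

namespace Pool.Agent.N132.IX

open Module Filter Topology
open Pool.Agent.H914 Pool.Agent.H914.VarClass Pool.Agent.H914.VarClass.Obj
  Pool.Agent.H914.WeilCohomology Pool.Agent.W492.BB Pool.Agent.W550.Corr Pool.Agent.Y133.Half

variable {k : Type u} [Field k] {𝒱 : VarClass k} {ops : CycleOps 𝒱}
  {W : WeilCohomology.{u, v} ops} {X Y Z P Q V : 𝒱.Obj}

/-- The hypotheses of the main case. -/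
structure Main (C : CycleTheory.{u, v, w} W) (X : 𝒱.Obj) : Prop where
  fin : ∀ n, Module.Finite W.K (C.A (pw X n))
  num : ∀ n, C.S.Num (pw X n) = ⊥
  growth : Growth C.S X
  pos : ∀ n, 0 < C.S.a (pw X n)

variable (C : CycleTheory.{u, v, w} W)

/-- The dimensions of the spaces `G n` are asymptotic to `N` times the numerical ranks. -/
def Lim (X : 𝒱.Obj) (G : ∀ n, Submodule W.K (C.A (pw X n))) (N : ℕ) : Prop :=
  Tendsto (fun n => (finrank W.K (G n) : ℝ) / C.S.a (pw X n)) atTop (𝓝 N)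

/-- The dimensions of the spaces `G n` grow faster than the numerical ranks. -/
def Inf (X : 𝒱.Obj) (G : ∀ n, Submodule W.K (C.A (pw X n))) : Prop :=
  ∀ N : ℕ, ∀ᶠ n in atTop, N * C.S.a (pw X n) ≤ finrank W.K (G n)

variable {C}

lemma Inf.mono (hM : Main C X) {G' G : ∀ n, Submodule W.K (C.A (pw X n))}
    (hle : ∀ n, G' n ≤ G n) (h : Inf C X G') : Inf C X G := by
  intro N
  filter_upwards [h N] with n hn
  have := hM.fin n
  exact hn.trans (Submodule.finrank_mono (hle n))

lemma lim_bound (hM : Main C X) {U G : ∀ n, Submodule W.K (C.A (pw X n))} (hle : ∀ n, U n ≤ G n)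
    {N N₀ : ℕ} (hU : Lim C X U N)
    (hf : ∃ᶠ n in atTop, finrank W.K (G n) < N₀ * C.S.a (pw X n)) : N ≤ N₀ := by
  by_contra hlt
  push Not at hlt
  have h1 : (N₀ : ℝ) < N := by exact_mod_cast hlt
  have h2 := hU.eventually (lt_mem_nhds h1)
  obtain ⟨n, hn1, hn2⟩ := (hf.and_eventually h2).exists
  have hp : (0 : ℝ) < C.S.a (pw X n) := by exact_mod_cast hM.pos n
  rw [lt_div_iff₀ hp] at hn2
  have := hM.fin n
  have h3 := Submodule.finrank_mono (hle n)
  have h4 : N₀ * C.S.a (pw X n) < finrank W.K (U n) := by exact_mod_cast hn2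
  omega

/-- The rank of a nonzero idempotent is positive. -/
lemma rank_pos {g : Module.End W.K (W.H P)} (h0 : g ≠ 0) :
    1 ≤ finrank W.K (LinearMap.range g) := Sys.finrank_range_pos h0

/-- Iteration of the composition step. -/
lemma iterate (hM : Main C X) {G' G : ∀ n, Submodule W.K (C.A (pw X n))}
    (hG' : Stab C X G') (hG : Stab C X G) (hle : ∀ n, G' n ≤ G n)
    (h0 : ∀ (m n : ℕ) (Γ : C.A ((pw X m).prod (pw X n))), C.cl _ Γ = 0 → ∀ y ∈ G m,
      C.act Γ y ∈ G' n) {N' : ℕ} (hl : Lim C X G' N') : (∃ N, Lim C X G N) ∨ Inf C X G := by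
  classical
  by_cases hI : Inf C X G
  · exact Or.inr hI
  left
  rw [Inf] at hI
  push Not at hI
  obtain ⟨N₀, hN₀⟩ := hI
  let R : ℕ → Prop := fun N => ∃ U : ∀ n, Submodule W.K (C.A (pw X n)), Stab C X U ∧
    (∀ n, G' n ≤ U n) ∧ (∀ n, U n ≤ G n) ∧ Lim C X U N
  have hR : ∀ N, R N → N ≤ N₀ := fun N ⟨U, _, _, hU, hL⟩ => lim_bound hM hU hL hN₀
  have h1 : R N' := ⟨G', hG', fun _ => le_rfl, hle, hl⟩
  obtain ⟨U, hU, hU1, hU2, hL⟩ := Nat.findGreatest_spec (hR _ h1) h1
  set N := Nat.findGreatest R N₀ with hN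
  by_cases heq : ∀ n, ∀ y ∈ G n, y ∈ U n
  · refine ⟨N, ?_⟩
    have : U = G := funext fun n => le_antisymm (hU2 n) (heq n)
    rw [← this]
    exact hL
  · exfalso
    push Not at heq
    obtain ⟨m, y, hy, hy'⟩ := heq
    obtain ⟨g, hg, hgg, hg0, U', hS, hU'1, hU'2, hdim⟩ := step C X hM.fin hM.num hU hG hU2
      (fun m n Γ hΓ y hy => hU1 n (h0 m n Γ hΓ y hy)) hy hy'
    have h2 := tendsto_r C.S X hM.growth m hg hgg
    have h3 : Lim C X U' (N + finrank W.K (LinearMap.range g)) := by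
      have h4 := hL.add h2
      rw [Lim]
      push_cast
      refine h4.congr fun n => ?_
      rw [hdim n]
      push_cast
      rw [add_div]
    have h5 : R (N + finrank W.K (LinearMap.range g)) :=
      ⟨U', hS, fun n => (hU1 n).trans (hU'1 n), hU'2, h3⟩
    have h6 := rank_pos hg0
    exact Nat.findGreatest_is_greatest (P := R) (n := N₀) (show N < _ by omega) (hR _ h5) h5

section numTriv

variable {Z : 𝒱.Obj}

lemma numTriv_iff {x : C.A Z} : CycleTheory.NumTriv x ↔ C.cl Z x ∈ C.S.Num Z := by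
  constructor
  · intro h
    refine ⟨C.cl_mem_S x, ?_⟩
    rintro _ ⟨y, rfl⟩
    have := h y
    rw [map_mul] at this
    exact this
  · intro h y
    rw [map_mul]
    exact h.2 _ (C.cl_mem_S y)

lemma numTriv_of_cl {x : C.A Z} (h : C.cl Z x = 0) : CycleTheory.NumTriv x := by
  intro y
  rw [map_mul, h, zero_mul, map_zero]

lemma numTriv_mul {x : C.A Z} (h : CycleTheory.NumTriv x) (y : C.A Z) :
    CycleTheory.NumTriv (x * y) := by
  intro z
  rw [mul_assoc]
  exact h _

lemma numTriv_mul' {y : C.A Z} (h : CycleTheory.NumTriv y) (x : C.A Z) :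
    CycleTheory.NumTriv (x * y) := by
  rw [C.mul_comm]
  exact numTriv_mul h x

lemma numTriv_pull (f : X ⟶ Y) {x : C.A Y} (h : CycleTheory.NumTriv x) :
    CycleTheory.NumTriv (C.pull f x) := by
  rw [numTriv_iff, C.cl_pull]
  exact Sys.Num.map f (numTriv_iff.1 h)

lemma numTriv_push (f : X ⟶ Y) {x : C.A X} (h : CycleTheory.NumTriv x) :
    CycleTheory.NumTriv (C.push f x) := by
  rw [numTriv_iff, C.cl_push]
  exact Sys.Num.push f (numTriv_iff.1 h)

lemma numTriv_act {Γ : C.A (P.prod Q)} (h : CycleTheory.NumTriv Γ) (x : C.A P) :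
    CycleTheory.NumTriv (C.act Γ x) := numTriv_push _ (numTriv_mul h _)

lemma numTriv_act' (Γ : C.A (P.prod Q)) {x : C.A P} (h : CycleTheory.NumTriv x) :
    CycleTheory.NumTriv (C.act Γ x) := numTriv_push _ (numTriv_mul' (numTriv_pull _ h) _)

lemma numTriv_comp {Γ : C.A (P.prod Q)} (h : CycleTheory.NumTriv Γ) (Δ : C.A (Q.prod Z)) :
    CycleTheory.NumTriv (C.comp Γ Δ) := numTriv_push _ (numTriv_mul' (numTriv_pull _ h) _)

lemma cl_comp_zero {Γ : C.A (P.prod Q)} (h : C.cl _ Γ = 0) (Δ : C.A (Q.prod Z)) :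
    C.cl _ (C.comp Γ Δ) = 0 := by
  rw [← C.rho_eq_zero, C.rho_comp, C.rho_eq_zero.2 h, LinearMap.comp_zero]

lemma cl_comp_zero' (Γ : C.A (P.prod Q)) {Δ : C.A (Q.prod Z)} (h : C.cl _ Δ = 0) :
    C.cl _ (C.comp Γ Δ) = 0 := by
  rw [← C.rho_eq_zero, C.rho_comp, C.rho_eq_zero.2 h, LinearMap.zero_comp]

end numTriv

section fil

lemma stab_fil (j : ℕ) : Stab C X (C.fil X j) := by
  intro m n Γ y hy
  refine Submodule.span_induction (p := fun y _ => C.act Γ y ∈ C.fil X j n) ?_ ?_ ?_ ?_ hy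
  · intro y hy'
    cases hy' with
    | zero => exact Submodule.subset_span (.zero _ _)
    | succ j l m Δ hΔ z hz =>
      rw [← TheoryData.act_comp]
      exact Submodule.subset_span (.succ _ _ _ _ (numTriv_comp hΔ Γ) _ hz)
  · rw [TheoryData.act_map_zero]; exact Submodule.zero_mem _
  · intro a b _ _ ha hb
    rw [act_map_add]; exact Submodule.add_mem _ ha hb
  · intro c a _ ha
    rw [act_map_smul]; exact Submodule.smul_mem _ _ ha

lemma act_fil {j m n : ℕ} {Γ : C.A ((pw X m).prod (pw X n))} (hΓ : CycleTheory.NumTriv Γ)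
    {y : C.A (pw X m)} (hy : y ∈ C.fil X j m) : C.act Γ y ∈ C.fil X (j + 1) n := by
  refine Submodule.span_induction (p := fun y _ => C.act Γ y ∈ C.fil X (j + 1) n) ?_ ?_ ?_ ?_ hy
  · intro y hy
    exact Submodule.subset_span (.succ _ _ _ _ hΓ _ hy)
  · rw [TheoryData.act_map_zero]; exact Submodule.zero_mem _
  · intro a b _ _ ha hb
    rw [act_map_add]; exact Submodule.add_mem _ ha hb
  · intro c a _ ha
    rw [act_map_smul]; exact Submodule.smul_mem _ _ ha

lemma composite_pred {j n : ℕ} {y : C.A (pw X n)} (h : C.Composite X (j + 1) n y) :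
    C.Composite X j n y := by
  induction j generalizing n with
  | zero => exact .zero _ _
  | succ j ih =>
    cases h with
    | succ _ m _ Γ hΓ y hy => exact .succ _ _ _ _ hΓ _ (ih hy)

lemma fil_succ_le (j n : ℕ) : C.fil X (j + 1) n ≤ C.fil X j n :=
  Submodule.span_mono fun _ h => composite_pred h

lemma fil_zero (n : ℕ) : C.fil X 0 n = ⊤ := by
  rw [eq_top_iff]
  exact fun y _ => Submodule.subset_span (.zero _ _)

/-- The limit exists if the filtration is finite. -/
lemma lim_of_fil (hM : Main C X) (j : ℕ) (h : (∃ N, Lim C X (C.fil X j) N) ∨ Inf C X (C.fil X j)) :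
    (∃ N, Lim C X (C.fil X 0) N) ∨ Inf C X (C.fil X 0) := by
  induction j with
  | zero => exact h
  | succ j ih =>
    apply ih
    rcases h with ⟨N, hN⟩ | h
    · exact iterate hM (stab_fil (j + 1)) (stab_fil j) (fil_succ_le j)
        (fun m n Γ hΓ y hy => act_fil (numTriv_of_cl hΓ) hy) hN
    · exact Or.inr (h.mono hM (fil_succ_le j))

end fil

end Pool.Agent.N132.IX
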