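import Pool.Agent.N132.IX.Schur

/-!
# The index law: main theorem
-/

open CategoryTheory AlgebraicGeometry
open scoped ENNReal

universe u v w

namespace Pool.Agent.N132.IX

open Module Filter Topology
open Pool.Agent.H914 Pool.Agent.H914.VarClass Pool.Agent.H914.VarClass.Obj
  Pool.Agent.H914.WeilCohomology Pool.Agent.W492.BB Pool.Agent.W550.Corr Pool.Agent.Y133.Half

variable {k : Type u} [Field k] {𝒱 : VarClass k} {ops : CycleOps 𝒱}
  {W : WeilCohomology.{u, v} ops} {X Y Z P Q V : 𝒱.Obj} {C : CycleTheory.{u, v, w} W}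

/-- **The index law with the graded pieces.** -/
theorem index_graded (C : CycleTheory.{u, v, w} W) (X : 𝒱.Obj) {d : ℕ}
    (h : Tendsto (fun n => C.ratio (pw X n)) atTop (𝓝 (d : ℝ≥0∞))) :
    ∃ c : ℕ → ℕ, c 0 = 1 ∧ ∑ j ∈ Finset.range d, c j = d ∧
      (∀ j, Tendsto (fun n => ((finrank W.K (C.fil X j n) : ℝ) - finrank W.K (C.fil X (j + 1) n)) /
        C.numRank (pw X n)) atTop (𝓝 (c j))) ∧ ∀ j, c j = 0 ↔ ∀ n, C.fil X j n = ⊥ := by
  rcases alternative C X with h1 | ⟨N, hM, hL, hf⟩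
  · exfalso
    have hr0 : ∀ n, (C.numRank (pw X n) : ℝ≥0∞) ≠ 0 := fun n => by
      rw [numRank_eq]
      exact_mod_cast (a_pos C _).ne'
    have h2 : ∀ᶠ n in atTop, C.ratio (pw X n) < d + 1 := by
      apply h.eventually (gt_mem_nhds _)
      exact_mod_cast Nat.lt_succ_self d
    obtain ⟨n, hn1, hn2⟩ := ((h1 (d + 1)).and h2).exists
    have h3 : (((d + 1) * C.numRank (pw X n) : ℕ) : ℕ∞).toENNReal ≤
        (C.dim (pw X n)).toENNReal := ENat.toENNReal_le.2 hn1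
    rw [ENat.toENNReal_coe] at h3
    have h4 : ((d : ℝ≥0∞) + 1) ≤ C.ratio (pw X n) := by
      rw [CycleTheory.ratio, ENNReal.le_div_iff_mul_le (Or.inl (hr0 n))
        (Or.inl (ENNReal.natCast_ne_top _))]
      exact_mod_cast h3
    exact absurd hn2 (not_lt.2 h4)
  · have hN : N = d := by
      have hdim : ∀ n, C.dim (pw X n) = (finrank W.K (C.A (pw X n)) : ℕ∞) := fun n => by
        have := hM.fin n
        exact dim_eq
      have h2 : Tendsto (fun n => ENNReal.ofReal ((finrank W.K (C.A (pw X n)) : ℝ) /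
          C.S.a (pw X n))) atTop (𝓝 (ENNReal.ofReal N)) := by
        refine (ENNReal.continuous_ofReal.tendsto _).comp ?_
        refine Tendsto.congr (fun n => ?_) hL
        rw [finrank_top]
      rw [ENNReal.ofReal_natCast] at h2
      have h3 : Tendsto (fun n => C.ratio (pw X n)) atTop (𝓝 (N : ℝ≥0∞)) := by
        refine h2.congr fun n => ?_
        have hp : (0 : ℝ) < C.S.a (pw X n) := by exact_mod_cast hM.pos n
        rw [CycleTheory.ratio, hdim n, numRank_eq, ENat.toENNReal_coe,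
          ENNReal.ofReal_div_of_pos hp, ENNReal.ofReal_natCast, ENNReal.ofReal_natCast]
      exact_mod_cast tendsto_nhds_unique h3 h
    subst hN
    obtain ⟨c, h0, h1, h2, h3⟩ := graded hM hf hL
    refine ⟨c, h0, h1, fun j => ?_, h3⟩
    refine (h2 j).congr fun n => ?_
    rw [numRank_eq]

/-- **The index of the ring of cycles.** -/
theorem index_main (C : CycleTheory.{u, v, w} W) (X : 𝒱.Obj) :
    -- the filtration
    ((∀ n, C.fil X 0 n = ⊤) ∧ (∀ n, C.fil X 1 n = C.num (pw X n)) ∧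
      (∀ j n, C.fil X (j + 1) n ≤ C.fil X j n) ∧
      (∀ (i j n : ℕ) (x y : C.A (pw X n)), x ∈ C.fil X i n → y ∈ C.fil X j n →
        x * y ∈ C.fil X (i + j) n) ∧
      ∀ (j m n : ℕ) (Γ : C.A ((pw X m).prod (pw X n))) (y : C.A (pw X m)), y ∈ C.fil X j m →
        C.act Γ y ∈ C.fil X j n ∧ (CycleTheory.NumTriv Γ → C.act Γ y ∈ C.fil X (j + 1) n)) ∧
    -- the index
    ∃ N : ℕ∞, N ≠ 0 ∧ Tendsto (fun n => C.ratio (pw X n)) atTop (𝓝 (N : ℝ≥0∞)) ∧
      (N = 1 ↔ ∀ (n : ℕ) (x : C.A (pw X n)), CycleTheory.NumTriv x → x = 0) ∧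
      ∀ d : ℕ, N = d → (∀ n, Module.Finite W.K (C.A (pw X n))) ∧
        (∀ (n : ℕ) (x : C.A (pw X n)), CycleTheory.NumTriv x → C.cl _ x = 0) ∧
        (∀ n, C.fil X d n = ⊥) ∧ (∀ m n Γ, C.NComp X d m n Γ → Γ = 0) ∧
        ∃ c : ℕ → ℕ, c 0 = 1 ∧ ∑ j ∈ Finset.range d, c j = d ∧
          (∀ j, Tendsto (fun n => ((finrank W.K (C.fil X j n) : ℝ) -
            finrank W.K (C.fil X (j + 1) n)) / C.numRank (pw X n)) atTop (𝓝 (c j))) ∧
          ∀ j, c j = 0 ↔ ∀ n, C.fil X j n = ⊥ := by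
  refine ⟨⟨fil_zero, fun n => ?_, fil_succ_le, fun i j n x y hx hy => fil_mul C X hx hy,
    fun j m n Γ y hy => ⟨stab_fil j m n Γ y hy, fun hΓ => act_fil hΓ hy⟩⟩, ?_⟩
  · ext x
    exact fil_one_iff
  · obtain ⟨N, h0, h1, h2, h3⟩ := index_law C X
    refine ⟨N, h0, h1, h2, fun d hd => ?_⟩
    obtain ⟨h4, h5, h6⟩ := h3 d hd
    refine ⟨h4, h5, h6, fun m n Γ hΓ => ?_, index_graded C X ?_⟩
    · have h7 := ncomp_fil hΓ
      rw [h6, Submodule.mem_bot] at h7
      exact (pullEquiv C (pwAdd X m n).symm).injective (h7.trans (map_zero _).symm)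
    rw [hd] at h1
    simpa using h1

end Pool.Agent.N132.IX
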