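import Pool.Agent.N803.IX.Tend
import Pool.Agent.N944.IX.L2
import Pool.Agent.N316.IX.Step
import Pool.Agent.N7.IX.Calc
import Pool.Agent.N765.IX.Phantom
import Pool.Agent.N169.IX.FilMul

/-!
# The parts of the proof (by helpers 803, 944, 316, 7, 765, 169)
-/
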