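import Pool.Agent.N132.IX.Chain

/-!
# Classes fixed by homologically trivial correspondences
-/

open CategoryTheory AlgebraicGeometry

universe u v w

namespace Pool.Agent.N132.IX

open Module Filter Topology
open Pool.Agent.H914 Pool.Agent.H914.VarClass Pool.Agent.H914.VarClass.Obj
  Pool.Agent.H914.WeilCohomology Pool.Agent.W492.BB Pool.Agent.W550.Corr Pool.Agent.Y133.Half

variable {k : Type u} [Field k] {𝒱 : VarClass k} {ops : CycleOps 𝒱}
  {W : WeilCohomology.{u, v} ops} {X Y Z P Q V : 𝒱.Obj} {C : CycleTheory.{u, v, w} W}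

/-- Isomorphic varieties have isomorphic spaces of cycles. -/
noncomputable def pullEquiv (C : CycleTheory.{u, v, w} W) (θ : X ≅ Y) : C.A Y ≃ₗ[W.K] C.A X where
  toFun := C.pull θ.hom
  invFun := C.pull θ.inv
  map_add' := map_add _
  map_smul' := map_smul _
  left_inv x := by
    rw [← TheoryData.pull_comp, θ.inv_hom_id, TheoryData.pull_id]
  right_inv x := by
    rw [← TheoryData.pull_comp, θ.hom_inv_id, TheoryData.pull_id]

lemma nonempty_pwpw (X : 𝒱.Obj) (m : ℕ) : ∀ j : ℕ,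
    Nonempty (pw (pw X m) j ≅ pw X (j * (m + 1) + m))
  | 0 => ⟨eqToIso (by rw [zero_mul, zero_add]; rfl)⟩
  | j + 1 => by
    obtain ⟨θ⟩ := nonempty_pwpw X m j
    exact ⟨prodCongr θ (Iso.refl _) ≪≫ pwAdd X (j * (m + 1) + m) m ≪≫
      eqToIso (by congr 1; ring)⟩

/-- **Phantoms.** A nonzero class fixed by a homologically trivial correspondence makes the ratios
tend to infinity. -/
lemma phantom_inf (hM : Main C X) (hf : ¬ NoFix C X) :
    ∀ N : ℕ, ∀ᶠ n in atTop, N * C.S.a (pw X n) ≤ finrank W.K (C.A (pw X n)) := by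
  rw [NoFix] at hf
  push Not at hf
  obtain ⟨m, Γ, y, hΓ, hΓy, hy⟩ := hf
  intro N
  set P := pw X m with hP
  -- the crude bound
  set B := finrank W.K (W.H P) + 1 with hB
  have h1 : ∀ᶠ q in atTop, C.S.a (pw X (m + q + 1)) ≤ B * C.S.a (pw X q) := by
    have h2 := tendsto_r C.S X hM.growth m (g := 1) Sys.Op.id rfl
    rw [Sys.rank_one] at h2
    have h3 : (finrank W.K (W.H (pw X m)) : ℝ) < B := by rw [hB]; push_cast; linarith
    filter_upwards [h2.eventually (gt_mem_nhds h3)] with q hq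
    have hp : (0 : ℝ) < C.S.a (pw X q) := by exact_mod_cast hM.pos q
    rw [div_lt_iff₀ hp, Sys.r_one, C.S.a_iso (pwAdd X m q).symm.symm] at hq
    exact_mod_cast hq.le
  obtain ⟨n₁, hn₁⟩ := eventually_atTop.1 h1
  set k := N * B with hk
  rw [eventually_atTop]
  refine ⟨((k + 1) * (m + 1) + m) + n₁ + 1, fun n' hn' => ?_⟩
  obtain ⟨n, rfl⟩ : ∃ n, n' = ((k + 1) * (m + 1) + m) + n + 1 :=
    ⟨n' - ((k + 1) * (m + 1) + m) - 1, by omega⟩
  have hn : n₁ ≤ n := by omega
  obtain ⟨θ⟩ := nonempty_pwpw X m k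
  obtain ⟨θ'⟩ := nonempty_pwpw X m (k + 1)
  let φ : (pw P k).prod (pw X n) ≅ pw X ((k * (m + 1) + m) + n + 1) :=
    prodCongr θ (Iso.refl _) ≪≫ pwAdd X _ n
  let φ' : (pw P (k + 1)).prod (pw X n) ≅ pw X (((k + 1) * (m + 1) + m) + n + 1) :=
    prodCongr θ' (Iso.refl _) ≪≫ pwAdd X _ n
  have hfin : Module.Finite W.K (C.A ((pw P (k + 1)).prod (pw X n))) := by
    have := hM.fin (((k + 1) * (m + 1) + m) + n + 1)
    exact Module.Finite.equiv (pullEquiv C φ')
  have hPP : Module.Finite W.K (C.A (P.prod P)) := by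
    have := hM.fin (m + m + 1)
    exact Module.Finite.equiv (pullEquiv C (pwAdd X m m))
  have h4 := N765.IX.phantom C P hy hΓ hΓy hPP k (pw X n) hfin
  rw [C.S.a_iso φ, ← (pullEquiv C φ').finrank_eq] at h4
  have h5 := hn₁ ((k * (m + 1) + m) + n + 1) (by omega)
  have h6 : m + ((k * (m + 1) + m) + n + 1) + 1 = ((k + 1) * (m + 1) + m) + n + 1 := by ring
  rw [h6] at h5
  calc N * C.S.a (pw X (((k + 1) * (m + 1) + m) + n + 1))
      ≤ N * (B * C.S.a (pw X ((k * (m + 1) + m) + n + 1))) := Nat.mul_le_mul_left _ h5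
    _ = k * C.S.a (pw X ((k * (m + 1) + m) + n + 1)) := by rw [hk]; ring
    _ ≤ (k + 1) * C.S.a (pw X ((k * (m + 1) + m) + n + 1)) :=
        Nat.mul_le_mul_right _ (Nat.le_succ _)
    _ ≤ _ := h4

end Pool.Agent.N132.IX
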