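import Pool.Agent.N132.IX.Graded
import Pool.Agent.TH133.Dual

/-!
# Schur finiteness and nilpotence
-/

open CategoryTheory AlgebraicGeometry
open scoped ENNReal

universe u v w

namespace Pool.Agent.N132.IX

open Module Filter Topology
open Pool.Agent.H914 Pool.Agent.H914.VarClass Pool.Agent.H914.VarClass.Obj
  Pool.Agent.H914.WeilCohomology Pool.Agent.W492.BB Pool.Agent.W550.Corr Pool.Agent.Y133.Half

variable {k : Type u} [Field k] {𝒱 : VarClass k} {ops : CycleOps 𝒱}
  {W : WeilCohomology.{u, v} ops} {X Y Z P Q V : 𝒱.Obj} {C : CycleTheory.{u, v, w} W}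

lemma comp_eq_act (C : CycleTheory.{u, v, w} W) (Γ : C.A (P.prod Q)) (Δ : C.A (Q.prod Z)) :
    C.comp Γ Δ = C.act (TH133.tens C.toTheoryData (dg C.toTheoryData P) Δ) Γ := by
  rw [TH133.act_tens C.toTheoryData C.mul_comm, TH133.tp_dg, dg_comp]

lemma numTriv_tens (Γ : C.A (P.prod Q)) {Δ : C.A (Z.prod V)} (h : CycleTheory.NumTriv Δ) :
    CycleTheory.NumTriv (TH133.tens C.toTheoryData Γ Δ) :=
  numTriv_mul' (numTriv_pull _ h) _

lemma numTriv_comp' (Γ : C.A (P.prod Q)) {Δ : C.A (Q.prod Z)} (h : CycleTheory.NumTriv Δ) :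
    CycleTheory.NumTriv (C.comp Γ Δ) := by
  rw [comp_eq_act]
  exact numTriv_act (numTriv_tens _ h) _

/-- Compositions of numerically trivial correspondences lie in the steps of the filtration. -/
lemma ncomp_fil {j m n : ℕ} {Γ : C.A ((pw X m).prod (pw X n))} (h : C.NComp X j m n Γ) :
    C.pull (pwAdd X m n).inv Γ ∈ C.fil X j (m + n + 1) := by
  induction h with
  | one m n Γ hΓ => exact fil_one_iff.2 (numTriv_pull _ hΓ)
  | succ j m n l Γ Δ _ hΔ ih =>
    set T := TH133.tens C.toTheoryData (dg C.toTheoryData (pw X m)) Δ with hT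
    have hTn : CycleTheory.NumTriv T := numTriv_tens _ hΔ
    have e1 : C.pull (pwAdd X m n).hom (C.pull (pwAdd X m n).inv Γ) = Γ := by
      rw [← TheoryData.pull_comp, Iso.hom_inv_id, TheoryData.pull_id]
    have e2 : C.pull (pwAdd X m l).inv (C.comp Γ Δ) =
        C.act (C.comp (C.comp (C.cograph (pwAdd X m n).hom) T) (C.cograph (pwAdd X m l).inv))
          (C.pull (pwAdd X m n).inv Γ) := by
      rw [TheoryData.act_comp, TheoryData.act_comp, TheoryData.act_cograph,
        TheoryData.act_cograph, e1, comp_eq_act]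
    rw [e2]
    exact act_fil (numTriv_comp (numTriv_comp' _ hTn) _) ih

lemma comp_graph (C : CycleTheory.{u, v, w} W) (f : P ⟶ Q) (g : Q ⟶ Z) :
    C.comp (C.graph f) (C.graph g) = C.graph (f ≫ g) := by
  rw [comp_eq_extR, extR_graph, TheoryData.graph, TheoryData.graph, ← TheoryData.push_comp]
  congr 1
  have e1 : Obj.lift (𝟙 P) f ≫ prodMap (𝟙 P) g = Obj.lift (𝟙 P) (f ≫ g) := by
    apply prod_ext <;> simp
  rw [e1]

/-- The correspondence given by an element of the group algebra. -/
noncomputable def psi (C : CycleTheory.{u, v, w} W) (X : 𝒱.Obj) (n : ℕ) :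
    MonoidAlgebra W.K (Equiv.Perm (Fin (n + 1))) →ₗ[W.K] C.A ((pw X n).prod (pw X n)) :=
  (MonoidAlgebra.basis (Equiv.Perm (Fin (n + 1))) W.K).constr W.K fun σ => C.graph (tau X n σ)

lemma psi_basis (n : ℕ) (σ : Equiv.Perm (Fin (n + 1))) :
    psi C X n (MonoidAlgebra.basis _ W.K σ) = C.graph (tau X n σ) :=
  Basis.constr_basis _ _ _ _

lemma psi_mul (n : ℕ) (f g : MonoidAlgebra W.K (Equiv.Perm (Fin (n + 1)))) :
    psi C X n (f * g) = C.comp (psi C X n f) (psi C X n g) := by
  have h : (LinearMap.mul W.K (MonoidAlgebra W.K (Equiv.Perm (Fin (n + 1))))).compr₂ (psi C X n) =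
      (compL C.toTheoryData (X := pw X n) (Y := pw X n) (Z := pw X n)).compl₁₂
        (psi C X n) (psi C X n) := by
    refine (MonoidAlgebra.basis (Equiv.Perm (Fin (n + 1))) W.K).ext fun σ => ?_
    refine (MonoidAlgebra.basis (Equiv.Perm (Fin (n + 1))) W.K).ext fun τ => ?_
    rw [LinearMap.compr₂_apply, LinearMap.compl₁₂_apply, psi_basis, psi_basis, compL_apply,
      comp_graph, ← tau_mul, LinearMap.mul_apply', MonoidAlgebra.basis_apply,
      MonoidAlgebra.basis_apply, MonoidAlgebra.single_mul_single, one_mul,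
      ← MonoidAlgebra.basis_apply, psi_basis]
  exact congrArg (fun B => B f g) h

/-- **Schur finiteness.** If no nonzero class on a power of `X` is fixed by a homologically trivial
correspondence then the permutations of some power of `X` are linearly dependent. -/
theorem schur_finite (hf : NoFix C X) : ∃ n : ℕ,
    ¬ LinearIndependent W.K fun σ : Equiv.Perm (Fin (n + 1)) => C.graph (tau X n σ) := by
  classical
  set b := finrank W.K (W.H X) with hb
  obtain ⟨n, hn⟩ : ∃ n : ℕ, b ^ (2 * (n + 1)) < (n + 1).factorial := by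
    have h1 := (FloorSemiring.tendsto_pow_div_factorial_atTop (K := ℝ) ((b : ℝ) ^ 2))
    have h2 := h1.eventually (gt_mem_nhds one_pos)
    obtain ⟨m, hm⟩ := eventually_atTop.1 h2
    have h3 := hm (m + 1) (by omega)
    have h4 : (0 : ℝ) < ((m + 1).factorial : ℝ) := by exact_mod_cast Nat.factorial_pos _
    rw [div_lt_one h4, ← pow_mul] at h3
    exact ⟨m, by exact_mod_cast h3⟩
  refine ⟨n, fun hli => ?_⟩
  set S := Equiv.Perm (Fin (n + 1))
  -- the kernel in the group algebra
  let I : Ideal (MonoidAlgebra W.K S) :=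
    { carrier := {f | C.rho _ _ (psi C X n f) = 0}
      zero_mem' := by simp
      add_mem' := fun {a b} ha hb => by
        change C.rho _ _ (psi C X n (a + b)) = 0
        rw [map_add, map_add]
        change _ + _ = _
        rw [show C.rho _ _ (psi C X n a) = 0 from ha, show C.rho _ _ (psi C X n b) = 0 from hb,
          add_zero]
      smul_mem' := fun c a ha => by
        change C.rho _ _ (psi C X n (c * a)) = 0
        rw [psi_mul, C.rho_comp, show C.rho _ _ (psi C X n a) = 0 from ha, LinearMap.zero_comp] }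
  have hI : I ≠ ⊥ := by
    intro hI
    have hinj : Function.Injective (C.rho (pw X n) (pw X n) ∘ₗ psi C X n) := by
      rw [← LinearMap.ker_eq_bot, LinearMap.ker_eq_bot']
      intro f hf
      have : f ∈ I := hf
      rw [hI] at this
      exact this
    have h1 := LinearMap.finrank_le_finrank_of_injective hinj
    rw [Module.finrank_linearMap, finrank_pw,
      Module.finrank_eq_card_basis (MonoidAlgebra.basis S W.K), Fintype.card_perm,
      Fintype.card_fin, ← pow_add] at h1
    have h2 : n + 1 + (n + 1) = 2 * (n + 1) := by ring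
    rw [h2, ← hb] at h1
    omega
  have : NeZero (Nat.card S : W.K) := ⟨by
    rw [Nat.card_eq_fintype_card]
    exact_mod_cast Fintype.card_ne_zero⟩
  obtain ⟨e, he, heI⟩ := IsSemisimpleRing.ideal_eq_span_idempotent I
  have he0 : e ≠ 0 := by
    rintro rfl
    apply hI
    rw [heI]
    simp
  have heI' : C.rho _ _ (psi C X n e) = 0 := by
    have : e ∈ I := by rw [heI]; exact Ideal.mem_span_singleton_self e
    exact this
  have hcl : C.cl _ (psi C X n e) = 0 := C.rho_eq_zero.1 heI'
  -- the correspondence is fixed by a homologically trivial correspondence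
  set Γ := psi C X n e with hΓ
  have hcomp : C.comp Γ Γ = Γ := by rw [hΓ, ← psi_mul, he.eq]
  set T := TH133.tens C.toTheoryData (dg C.toTheoryData (pw X n)) Γ with hT
  have hTcl : C.cl _ T = 0 := by
    rw [hT, TH133.tens, map_mul, C.cl_pull (z := Γ), hcl, map_zero, mul_zero]
  have e1 : C.pull (pwAdd X n n).hom (C.pull (pwAdd X n n).inv Γ) = Γ := by
    rw [← TheoryData.pull_comp, Iso.hom_inv_id, TheoryData.pull_id]
  have e2 : C.act (C.comp (C.comp (C.cograph (pwAdd X n n).hom) T) (C.cograph (pwAdd X n n).inv))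
      (C.pull (pwAdd X n n).inv Γ) = C.pull (pwAdd X n n).inv Γ := by
    rw [TheoryData.act_comp, TheoryData.act_comp, TheoryData.act_cograph,
      TheoryData.act_cograph, e1, hT, ← comp_eq_act, hcomp]
  have h3 := hf (n + n + 1) _ _ (cl_comp_zero (cl_comp_zero' _ hTcl) _) e2
  have h4 : Γ = 0 := by rw [← e1, h3, map_zero]
  apply he0
  have h5 : ∑ σ, (MonoidAlgebra.basis S W.K).equivFun e σ • C.graph (tau X n σ) = 0 := by
    rw [← (MonoidAlgebra.basis S W.K).constr_apply_fintype W.K]
    exact h4
  have h6 := Fintype.linearIndependent_iff.1 hli _ h5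
  apply (MonoidAlgebra.basis S W.K).equivFun.injective
  rw [map_zero]
  exact funext h6

end Pool.Agent.N132.IX
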