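import Pool.Agent.N132.IX.Basic

/-!
# Definitions for the parts (project IX)
-/

open CategoryTheory AlgebraicGeometry

universe u v w

namespace Pool.Agent.N132.IX

open Module Filter Topology
open Pool.Agent.H914 Pool.Agent.H914.VarClass Pool.Agent.H914.VarClass.Obj
  Pool.Agent.H914.WeilCohomology Pool.Agent.W492.BB Pool.Agent.W550.Corr Pool.Agent.Y133.Half

variable {k : Type u} [Field k] {𝒱 : VarClass k} {ops : CycleOps 𝒱}
  {W : WeilCohomology.{u, v} ops} {X Y Z P Q V : 𝒱.Obj}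

/-- The hypotheses of the growth lemma. -/
structure Growth (S : Sys W) (X : 𝒱.Obj) : Prop where
  hB : ∀ c : ℝ, 0 ≤ c → c < (finrank W.K (W.H X) : ℝ) ^ 2 →
    ∃ l₀, ∀ l ≥ l₀, c * S.al X l ≤ S.al X (l + 1)
  lam : ∃ l ∈ S.C X, W.tr X l = 1

/-- A family of subspaces stable under all correspondences between powers of `X`. -/
def Stab (C : CycleTheory.{u, v, w} W) (X : 𝒱.Obj) (G : ∀ n, Submodule W.K (C.A (pw X n))) :
    Prop := ∀ (m n : ℕ) (Γ : C.A ((pw X m).prod (pw X n))) (y : C.A (pw X m)), y ∈ G m →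
      C.act Γ y ∈ G n

/-- The correspondence from `Y` to `X` acting by `a ↦ v f^* a`. -/
noncomputable def cw (C : CycleTheory.{u, v, w} W) (f : X ⟶ Y) (v : C.A X) : C.A (Y.prod X) :=
  C.push (Obj.lift f (𝟙 X)) v

end Pool.Agent.N132.IX
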